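import Pool.Agent.H17.EQ.TargetsQ
import Pool.Agent.H17.EE.XB

/-!
# MP_70ba79_ag, Theorem E, row OPS: shift, scaling and inversion of the parameter of a curve
-/

set_option autoImplicit false

namespace Pool.Agent.H2.EE

open MvPolynomial SC Pool.Agent.H27.LV Pool.Agent.H17.VG Pool.Agent.H17.BO Pool.Agent.H30.EE
open Pool.Agent.H17.EQ

variable {K : Type} [Field K] {n r : ℕ}

theorem resC_eval (z : Fin (r + 1) → Fin (n + 1) → K) (G : MvPolynomial (Fin (n + 1)) K) (t : K) :
    (resC z G).eval t = eval (fun i => ∑ j : Fin (r + 1), t ^ (j : ℕ) * z j i) G :=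
  Pool.Agent.H17.EE.eval_resC z G t

/-- shift of the parameter -/
def shz (s : K) (z : Fin (r + 1) → Fin (n + 1) → K) (m : Fin (r + 1)) (j : Fin (n + 1)) : K :=
  ∑ i : Fin (r + 1), ((i : ℕ).choose (m : ℕ) : K) * s ^ ((i : ℕ) - (m : ℕ)) * z i j

theorem shz_sum (s : K) (z : Fin (r + 1) → Fin (n + 1) → K) (t : K) (j : Fin (n + 1)) :
    ∑ m : Fin (r + 1), t ^ (m : ℕ) * shz s z m j =
      ∑ i : Fin (r + 1), (t + s) ^ (i : ℕ) * z i j := by
  have h1 : ∀ i : Fin (r + 1), (t + s) ^ (i : ℕ) =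
      ∑ m : Fin (r + 1), t ^ (m : ℕ) * (((i : ℕ).choose (m : ℕ) : K) * s ^ ((i : ℕ) - (m : ℕ))) := by
    intro i
    rw [Fin.sum_univ_eq_sum_range (fun m => t ^ m * (((i : ℕ).choose m : K) * s ^ ((i : ℕ) - m)))
      (r + 1), add_pow]
    have hsub : Finset.range ((i : ℕ) + 1) ⊆ Finset.range (r + 1) := by
      intro x hx
      rw [Finset.mem_range] at hx ⊢
      omega
    rw [← Finset.sum_subset hsub]
    · refine Finset.sum_congr rfl fun m _ => ?_
      ring
    · intro m _ hm
      rw [Finset.mem_range] at hm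
      rw [Nat.choose_eq_zero_of_lt (by omega)]
      simp
  simp only [shz, Finset.mul_sum]
  rw [Finset.sum_comm]
  refine Finset.sum_congr rfl fun i _ => ?_
  rw [h1 i, Finset.sum_mul]
  refine Finset.sum_congr rfl fun m _ => ?_
  ring

theorem shz_ind (s : K) {z : Fin (r + 1) → Fin (n + 1) → K} (hz : LinearIndependent K z) :
    LinearIndependent K (shz s z) := by
  classical
  obtain ⟨W, hW⟩ := Pool.Agent.H17.EE.exists_leftInv hz
  have h1 : ∀ m j, ∑ l, shz s z m l * W l j =
      ((j : ℕ).choose (m : ℕ) : K) * s ^ ((j : ℕ) - (m : ℕ)) := by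
    intro m j
    simp only [shz, Finset.sum_mul]
    rw [Finset.sum_comm]
    have h2 : ∀ i : Fin (r + 1), ∑ l, ((i : ℕ).choose (m : ℕ) : K) * s ^ ((i : ℕ) - (m : ℕ)) *
        z i l * W l j = ((i : ℕ).choose (m : ℕ) : K) * s ^ ((i : ℕ) - (m : ℕ)) *
        (if i = j then 1 else 0) := by
      intro i
      rw [← hW i j, Finset.mul_sum]
      exact Finset.sum_congr rfl fun l _ => by ring
    rw [Finset.sum_congr rfl fun i _ => h2 i]
    simp
  rw [Fintype.linearIndependent_iff]
  intro g hg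
  have h3 : ∀ j : Fin (r + 1), ∑ m, g m *
      (((j : ℕ).choose (m : ℕ) : K) * s ^ ((j : ℕ) - (m : ℕ))) = 0 := by
    intro j
    have h4 : ∑ l, (∑ i, g i • shz s z i) l * W l j = 0 := by
      rw [hg]
      simp
    have h5 : ∑ l, (∑ i, g i • shz s z i) l * W l j = ∑ i, g i * ∑ l, shz s z i l * W l j := by
      simp only [Finset.sum_apply, Pi.smul_apply, smul_eq_mul, Finset.sum_mul, Finset.mul_sum]
      rw [Finset.sum_comm]
      exact Finset.sum_congr rfl fun i _ => Finset.sum_congr rfl fun l _ => by ring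
    rw [h5] at h4
    simpa only [h1] using h4
  have h6 : ∀ N : ℕ, ∀ j : Fin (r + 1), (j : ℕ) = N → g j = 0 := by
    intro N
    induction N using Nat.strong_induction_on with
    | _ N ih =>
      intro j hj
      have h7 := h3 j
      rw [Finset.sum_eq_single j] at h7
      · simpa using h7
      · intro m _ hm
        rcases lt_trichotomy (m : ℕ) (j : ℕ) with h | h | h
        · rw [ih (m : ℕ) (by omega) m rfl, zero_mul]
        · exact absurd (Fin.ext h) hm
        · rw [Nat.choose_eq_zero_of_lt h]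
          simp
      · intro h
        exact absurd (Finset.mem_univ j) h
  exact fun j => h6 _ j rfl

theorem shz_last (s : K) (z : Fin (r + 1) → Fin (n + 1) → K) :
    shz s z (Fin.last r) = z (Fin.last r) := by
  funext j
  unfold shz
  rw [Finset.sum_eq_single (Fin.last r)]
  · simp
  · intro i _ hi
    have h : (i : ℕ) < r := by
      have h1 := i.2
      have h2 : (i : ℕ) ≠ r := fun h => hi (Fin.ext h)
      omega
    rw [Fin.val_last, Nat.choose_eq_zero_of_lt h]
    simp
  · intro h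
    exact absurd (Finset.mem_univ _) h

theorem infK (K : Type) [Field K] [CharZero K] : Infinite K :=
  Infinite.of_injective (Nat.cast : ℕ → K) Nat.cast_injective

theorem shz_van [CharZero K] (s : K) (z : Fin (r + 1) → Fin (n + 1) → K)
    (G : MvPolynomial (Fin (n + 1)) K) (h : resC z G = 0) : resC (shz s z) G = 0 := by
  have := infK K
  refine Polynomial.funext fun t => ?_
  rw [resC_eval, Polynomial.eval_zero]
  have h1 : (fun i => ∑ j : Fin (r + 1), t ^ (j : ℕ) * shz s z j i) =
      fun i => ∑ j : Fin (r + 1), (t + s) ^ (j : ℕ) * z j i := by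
    funext i
    exact shz_sum s z t i
  rw [h1, ← resC_eval, h, Polynomial.eval_zero]

theorem eval_smul_hom {e : ℕ} {G : MvPolynomial (Fin (n + 1)) K} (hG : G.IsHomogeneous e)
    (c : K) (x : Fin (n + 1) → K) : eval (fun i => c * x i) G = c ^ e * eval x G := by
  classical
  rw [eval_eq', eval_eq', Finset.mul_sum]
  refine Finset.sum_congr rfl fun m hm => ?_
  have h1 : ∑ i, m i = e := by
    have h2 := hG (mem_support_iff.mp hm)
    rw [← h2, Finsupp.weight_apply, Finsupp.sum_fintype]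
    · simp
    · simp
  have h3 : ∏ i, (c * x i) ^ m i = c ^ e * ∏ i, x i ^ m i := by
    simp only [mul_pow]
    rw [Finset.prod_mul_distrib, Finset.prod_pow_eq_pow_sum, h1]
  rw [h3]
  ring

theorem rev_eval {t : K} (ht : t ≠ 0) (z : Fin (r + 1) → Fin (n + 1) → K)
    {e : ℕ} {G : MvPolynomial (Fin (n + 1)) K} (hG : G.IsHomogeneous e) :
    (resC (fun i => z (Fin.rev i)) G).eval t = (t ^ r) ^ e * (resC z G).eval t⁻¹ := by
  rw [resC_eval, resC_eval, ← eval_smul_hom hG]
  congr 2
  funext j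
  rw [Finset.mul_sum, ← Equiv.sum_comp Fin.revPerm]
  refine Finset.sum_congr rfl fun i _ => ?_
  have h1 : ((Fin.revPerm i : Fin (r + 1)) : ℕ) = r - (i : ℕ) := by
    simp [Fin.revPerm, Fin.val_rev]
  have h2 : Fin.rev (Fin.revPerm i) = i := by
    simp [Fin.revPerm]
  rw [h1, h2]
  have h3 : t ^ r = t ^ (r - (i : ℕ)) * t ^ (i : ℕ) := by
    rw [← pow_add]
    congr 1
    have := i.2
    omega
  rw [h3, inv_pow]
  have h4 : t ^ (i : ℕ) ≠ 0 := pow_ne_zero _ ht
  field_simp

theorem pf_OPS : T_OPS := by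
  intro K _ _ n r z hz
  have := infK K
  refine ⟨fun s => ⟨shz s z, ⟨shz_ind s hz, fun e G _ h => shz_van s z G h⟩, shz_last s z,
    fun t j => shz_sum s z t j⟩, fun a ha => ⟨?_, ?_⟩, ⟨?_, ?_⟩⟩
  · obtain ⟨W, hW⟩ := Pool.Agent.H17.EE.exists_leftInv hz
    refine Pool.Agent.H17.EE.linInd_of_leftInv (W := fun l j => (a ^ (j : ℕ))⁻¹ * W l j) ?_
    intro i j
    have h1 : ∑ l, a ^ (i : ℕ) * z i l * ((a ^ (j : ℕ))⁻¹ * W l j) =
        a ^ (i : ℕ) * (a ^ (j : ℕ))⁻¹ * ∑ l, z i l * W l j := by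
      rw [Finset.mul_sum]
      exact Finset.sum_congr rfl fun l _ => by ring
    rw [h1, hW]
    by_cases hij : i = j
    · rw [if_pos hij, hij, mul_one, mul_inv_cancel₀ (pow_ne_zero _ ha)]
    · rw [if_neg hij, mul_zero]
  · intro e G _ h
    refine Polynomial.funext fun t => ?_
    rw [resC_eval, Polynomial.eval_zero]
    have h1 : (fun i => ∑ j : Fin (r + 1), t ^ (j : ℕ) * (a ^ (j : ℕ) * z j i)) =
        fun i => ∑ j : Fin (r + 1), (t * a) ^ (j : ℕ) * z j i := by
      funext i
      refine Finset.sum_congr rfl fun j _ => ?_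
      rw [mul_pow, mul_assoc]
    rw [h1, ← resC_eval, h, Polynomial.eval_zero]
  · exact hz.comp _ Fin.rev_injective
  · intro e G hG h
    have h1 : Polynomial.X * resC (fun i => z (Fin.rev i)) G = 0 := by
      refine Polynomial.funext fun t => ?_
      rw [Polynomial.eval_mul, Polynomial.eval_X, Polynomial.eval_zero]
      by_cases ht : t = 0
      · rw [ht, zero_mul]
      · rw [rev_eval ht z hG, h, Polynomial.eval_zero, mul_zero, mul_zero]
    exact (mul_eq_zero.mp h1).resolve_left Polynomial.X_ne_zero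

end Pool.Agent.H2.EE
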