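import Pool.Agent.H27.LV.Curve
import Pool.Agent.H17.VG.TargetsE

/-!
# Leading coefficients of a vector of functions at a place
-/

set_option autoImplicit false

namespace Pool.Agent.H2.EE

open SC Pool.Agent.H27.LV Pool.Agent.H17.VG

section Lead

variable {k K : Type} [Field k] [Field K] [Algebra k K]

/-- leading coefficients -/
theorem lead [IsAlgClosed k] [CharZero k] [Algebra.EssFiniteType k K]
    (htr : Algebra.trdeg k K = 1) (v : DV k K) {ι : Type} (w : ι → K) (q : ℤ)
    (hge : ∀ i, ge v q (w i)) :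
    ∃ lam : ι → k, (∀ i, ge v (q + 1) (w i - algebraMap k K (lam i) * v.unif ^ q)) := by
  have h : ∀ i, ∃ c : k, ge v (q + 1) (w i - algebraMap k K c * v.unif ^ q) := by
    intro i
    have hu : v.unif ≠ 0 := v.unif_ne_zero
    have h0 : ge v 0 (w i * v.unif ^ (-q)) := by
      have := (hge i).mul (ge_of_ord v (x := v.unif ^ (-q)))
      rw [v.ord_unif_zpow] at this
      simpa using this
    obtain ⟨c, hc⟩ : ∃ c : k, ge v 1 (w i * v.unif ^ (-q) - algebraMap k K c) := by
      rcases h0 with h0 | h0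
      · exact ⟨0, Or.inl (by rw [h0, map_zero, sub_zero])⟩
      · exact (rat k K htr v).2 _ h0
    refine ⟨c, ?_⟩
    have h1 := hc.mul (ge_of_ord v (x := v.unif ^ q))
    rw [v.ord_unif_zpow] at h1
    have h2 : (w i * v.unif ^ (-q) - algebraMap k K c) * v.unif ^ q =
        w i - algebraMap k K c * v.unif ^ q := by
      rw [sub_mul, mul_assoc, ← zpow_add₀ hu]
      simp
    rw [h2] at h1
    exact h1.mono (by omega)
  choose lam hlam using h
  exact ⟨lam, hlam⟩

theorem ne_of_lead (v : DV k K) {x : K} {q : ℤ} {c : k}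
    (h : ge v (q + 1) (x - algebraMap k K c * v.unif ^ q)) (hc : c ≠ 0) :
    x ≠ 0 ∧ v.ord x = q := by
  have hu : v.unif ^ q ≠ 0 := zpow_ne_zero _ v.unif_ne_zero
  have hc' : algebraMap k K c ≠ 0 := (map_ne_zero _).2 hc
  have hm : algebraMap k K c * v.unif ^ q ≠ 0 := mul_ne_zero hc' hu
  have ho : v.ord (algebraMap k K c * v.unif ^ q) = q := by
    rw [v.ord_mul' hc' hu, v.ord_base, v.ord_unif_zpow, zero_add]
  have hx : x = algebraMap k K c * v.unif ^ q + (x - algebraMap k K c * v.unif ^ q) := by ring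
  have h3 := v.ord_add_eq_left (x := algebraMap k K c * v.unif ^ q)
    (y := x - algebraMap k K c * v.unif ^ q) hm (fun hy => by
      rcases h with h | h
      · exact absurd h hy
      · rw [ho]; omega)
  rw [← hx, ho] at h3
  exact h3

theorem eq_zero_of_lead (v : DV k K) {x : K} {q : ℤ} {c : k}
    (h : ge v (q + 1) (x - algebraMap k K c * v.unif ^ q)) (hx : ge v (q + 1) x) : c = 0 := by
  by_contra hc
  obtain ⟨h1, h2⟩ := ne_of_lead v h hc
  rcases hx with hx | hx
  · exact h1 hx
  · omega

/-- a combination -/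
theorem lead_sum (v : DV k K) {ι : Type} [Fintype ι] {w : ι → K} {q : ℤ} {lam : ι → k}
    (h : ∀ i, ge v (q + 1) (w i - algebraMap k K (lam i) * v.unif ^ q)) (c : ι → k) :
    ge v (q + 1) ((∑ i, algebraMap k K (c i) * w i) -
      algebraMap k K (∑ i, c i * lam i) * v.unif ^ q) := by
  have h1 : (∑ i, algebraMap k K (c i) * w i) -
      algebraMap k K (∑ i, c i * lam i) * v.unif ^ q =
      ∑ i, algebraMap k K (c i) * (w i - algebraMap k K (lam i) * v.unif ^ q) := by
    rw [map_sum, Finset.sum_mul, ← Finset.sum_sub_distrib]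
    refine Finset.sum_congr rfl fun i _ => ?_
    rw [map_mul]
    ring
  rw [h1]
  refine ge_sum v _ _ _ fun i _ => ?_
  have := (ge_const v (c i)).mul (h i)
  rwa [zero_add] at this

/-- pole orders are bounds -/
theorem ge_pole (v : DV k K) {ι : Type} [Fintype ι] (w : ι → K) (i : ι) :
    ge v (-(poleOrder v w : ℤ)) (w i) := by
  right
  have h1 : (-(v.ord (w i))).toNat ≤ poleOrder v w := by
    unfold poleOrder
    exact Finset.le_sup (f := fun i => (-(v.ord (w i))).toNat) (Finset.mem_univ i)
  omega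

theorem pole_exists (v : DV k K) {ι : Type} [Fintype ι] (w : ι → K) (h : 0 < poleOrder v w) :
    ∃ i, v.ord (w i) = -(poleOrder v w : ℤ) := by
  have hne : (Finset.univ : Finset ι).Nonempty := by
    by_contra hcon
    rw [Finset.not_nonempty_iff_eq_empty] at hcon
    unfold poleOrder at h
    rw [hcon] at h
    simp at h
  obtain ⟨i, -, hi⟩ := Finset.exists_mem_eq_sup Finset.univ hne
    (fun i => (-(v.ord (w i))).toNat)
  refine ⟨i, ?_⟩
  have h2 : poleOrder v w = (-(v.ord (w i))).toNat := hi
  omega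

theorem pole_le_iff (v : DV k K) {ι : Type} [Fintype ι] (w : ι → K) (p : ℕ) :
    poleOrder v w ≤ p ↔ ∀ i, -(p : ℤ) ≤ v.ord (w i) := by
  unfold poleOrder
  rw [Finset.sup_le_iff]
  constructor
  · intro h i
    have := h i (Finset.mem_univ i)
    omega
  · intro h i _
    have := h i
    omega

end Lead

/-- finitely many nonzero vectors have a common non-orthogonal integral vector -/
theorem exists_int {k : Type} [Field k] [CharZero k] {m : ℕ} {V : Type} (s : Finset V)
    (lam : V → Fin (m + 1) → k) (h : ∀ v ∈ s, lam v ≠ 0) :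
    ∃ N : ℕ, ∀ v ∈ s, ∑ i : Fin (m + 1), (N : k) ^ (i : ℕ) * lam v i ≠ 0 := by
  classical
  let P : V → Polynomial k := fun v => ∑ i : Fin (m + 1), Polynomial.C (lam v i) *
    Polynomial.X ^ (i : ℕ)
  have hco : ∀ v (i : Fin (m + 1)), (P v).coeff i = lam v i := by
    intro v i
    simp only [P, Polynomial.finsetSum_coeff, Polynomial.coeff_C_mul, Polynomial.coeff_X_pow]
    rw [Finset.sum_eq_single i]
    · simp
    · intro b _ hb
      rw [if_neg (fun h => hb (Fin.ext h.symm)), mul_zero]
    · intro h; exact absurd (Finset.mem_univ i) h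
  have hP : ∀ v ∈ s, P v ≠ 0 := by
    intro v hv h0
    apply h v hv
    funext i
    rw [← hco v i, h0]
    simp
  have hQ : (∏ v ∈ s, P v) ≠ 0 := Finset.prod_ne_zero_iff.2 hP
  obtain ⟨N, hN⟩ : ∃ N : ℕ, (∏ v ∈ s, P v).eval (N : k) ≠ 0 := by
    by_contra hcon
    push Not at hcon
    apply hQ
    refine Polynomial.eq_zero_of_infinite_isRoot _ ?_
    refine Set.Infinite.mono (s := Set.range (fun N : ℕ => (N : k))) ?_
      (Set.infinite_range_of_injective Nat.cast_injective)
    rintro x ⟨N, rfl⟩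
    exact hcon N
  refine ⟨N, fun v hv => ?_⟩
  rw [Polynomial.eval_prod] at hN
  have h1 := (Finset.prod_ne_zero_iff.1 hN) v hv
  have h2 : (P v).eval (N : k) = ∑ i : Fin (m + 1), (N : k) ^ (i : ℕ) * lam v i := by
    simp only [P, Polynomial.eval_finsetSum, Polynomial.eval_mul, Polynomial.eval_C,
      Polynomial.eval_pow, Polynomial.eval_X]
    exact Finset.sum_congr rfl fun i _ => by ring
  rwa [h2] at h1

end Pool.Agent.H2.EE
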