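import Pool.Agent.H30.EE.TargetsU
import Pool.Agent.H2.EE.Lead

/-!
# CHT: the height of the matrix `c`
-/

set_option autoImplicit false

namespace Pool.Agent.H2.EE

open MvPolynomial SC Pool.Agent.H27.LV Pool.Agent.H17.VG Pool.Agent.H30.EE

section CHT

variable {k K : Type} [Field k] [Field K] [Algebra k K]

lemma ge_neg_one_pow (v : DV k K) (σ : ℤˣ) {t : ℤ} {x : K} (h : ge v t x) :
    ge v t (((σ : ℤ) : K) * x) := by
  rcases Int.units_eq_one_or σ with h1 | h1
  · rw [h1]; simpa using h
  · rw [h1]; simpa using h.neg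

lemma ge_prod (v : DV k K) {ι : Type} (s : Finset ι) (f : ι → K) (t : ℤ)
    (h : ∀ i ∈ s, ge v t (f i)) : ge v (s.card * t) (∏ i ∈ s, f i) := by
  classical
  induction s using Finset.induction_on with
  | empty => simpa using ge_one v
  | insert a s ha ih =>
    rw [Finset.prod_insert ha, Finset.card_insert_of_notMem ha]
    have := (h a (Finset.mem_insert_self _ _)).mul
      (ih fun i hi => h i (Finset.mem_insert_of_mem hi))
    refine this.mono ?_
    push_cast
    ring_nf
    exact le_refl _

lemma ge_det (v : DV k K) {m : ℕ} (A : Matrix (Fin m) (Fin m) K) (t : ℤ)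
    (h : ∀ i j, ge v t (A i j)) : ge v (m * t) A.det := by
  rw [Matrix.det_apply']
  refine ge_sum v _ _ _ fun σ _ => ge_neg_one_pow v _ ?_
  have := ge_prod v Finset.univ (fun i => A (σ i) i) t (fun i _ => h _ _)
  simpa using this

end CHT

theorem pf_CHT (hMO : T_MO) (hHG : T_HG) (hCBM : T_CBM) (hDGB : T_DGB) : T_CHT := by
  classical
  intro k K _ _ _ _ _ _ htr n r c ρ hρ
  set P : Option (Fin (r + 1) × Fin (n + 1)) → K := fun o => o.elim 1 fun p => c p.1 p.2 with hP
  have hPdeg : hgt k P = deg k P := (hHG k K htr _ P).2.2.2.2.2.1 none rfl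
  have hex : ∀ v : DV k K, ∃ lam : Fin (r + 1) × Fin (n + 1) → k, ∀ p,
      ge v (-(poleOrder v P : ℤ) + 1)
      (c p.1 p.2 - algebraMap k K (lam p) * v.unif ^ (-(poleOrder v P : ℤ))) :=
    fun v => lead htr v (fun p : Fin (r + 1) × Fin (n + 1) => c p.1 p.2) _
      (fun p => ge_pole v P (some p))
  choose lam hlam using hex
  have hfin : {v : DV k K | poleOrder v P ≠ 0}.Finite := pfi k K htr _ P
  have hrow : ∀ v : DV k K, ∃ i : Fin (r + 1), 0 < poleOrder v P → (fun j => lam v (i, j)) ≠ 0 := by
    intro v
    by_cases hv : 0 < poleOrder v P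
    · obtain ⟨o, ho⟩ := pole_exists v P hv
      rcases o with _ | p
      · exfalso
        have : P none = 1 := rfl
        rw [this, v.ord_one] at ho
        omega
      · refine ⟨p.1, fun _ h0 => ?_⟩
        have h1 := hlam v p
        have h2 : lam v p = 0 := congrFun h0 p.2
        have h3 : P (some p) = c p.1 p.2 := rfl
        rw [h2, map_zero, zero_mul, sub_zero] at h1
        rw [h3] at ho
        rcases h1 with h1 | h1
        · rw [h1, v.ord_zero] at ho; omega
        · omega
    · exact ⟨0, fun h => absurd h hv⟩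
  choose row hrow using hrow
  obtain ⟨N, hN⟩ := exists_int hfin.toFinset (fun v j => lam v (row v, j)) (fun v hv =>
    hrow v (by
      have := hfin.mem_toFinset.1 hv
      simp only [Set.mem_ofPred_eq] at this
      omega))
  set l : Fin (n + 1) → k := fun j => (N : k) ^ (j : ℕ) with hl
  set Q : Fin (r + 2) → K := Fin.cons 1 fun i => el l (c i) with hQ
  have hQdeg : hgt k Q = deg k Q := (hHG k K htr _ Q).2.2.2.2.2.1 0 rfl
  have hpole : ∀ v : DV k K, poleOrder v P ≤ poleOrder v Q := by
    intro v
    rcases Nat.eq_zero_or_pos (poleOrder v P) with h0 | h0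
    · omega
    · have h1 := lead_sum v (w := fun j => c (row v) j) (lam := fun j => lam v (row v, j))
        (fun j => hlam v (row v, j)) l
      have h2 := hN v (hfin.mem_toFinset.2 (by simp only [Set.mem_ofPred_eq]; omega))
      obtain ⟨h3, h4⟩ := ne_of_lead v h1 h2
      have h5 := ge_pole v Q (row v).succ
      have h6 : Q (row v).succ = ∑ i, algebraMap k K (l i) * c (row v) i := rfl
      rw [h6] at h5
      rcases h5 with h5 | h5
      · exact absurd h5 h3
      · omega
  have hmain : hgt k P ≤ ρ := by
    have h1 : (deg k P : ℤ) ≤ deg k Q := by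
      have hf2 := pfi k K htr _ Q
      have hd : deg k P = ∑ᶠ v : DV k K, poleOrder v P := rfl
      have hd2 : deg k Q = ∑ᶠ v : DV k K, poleOrder v Q := rfl
      have h2 : deg k P ≤ deg k Q := by
        rw [hd, hd2]
        have hsub1 : Function.support (fun v : DV k K => poleOrder v P) ⊆ ↑hf2.toFinset := by
          intro v' hv'
          rw [Set.Finite.coe_toFinset]
          have h4 := hpole v'
          have h5 : poleOrder v' P ≠ 0 := hv'
          simp only [Set.mem_ofPred_eq]
          omega
        have hsub2 : Function.support (fun v : DV k K => poleOrder v Q) ⊆ ↑hf2.toFinset := by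
          intro v' hv'
          rw [Set.Finite.coe_toFinset]
          exact hv'
        rw [finsum_eq_sum_of_support_subset _ hsub1, finsum_eq_sum_of_support_subset _ hsub2]
        exact Finset.sum_le_sum fun v _ => hpole v
      exact_mod_cast h2
    rw [hPdeg]
    rw [← hQdeg] at h1
    exact h1.trans (hρ l)
  refine ⟨hmain, fun hli => ?_⟩
  have hP0 : P ≠ 0 := fun h0 => one_ne_zero (α := K) (congrFun h0 none)
  have hM0 : mnr c ≠ 0 := ((hCBM K (r + 1) (Fin (n + 1)) c).1).1 hli
  rw [hDGB k K htr (Fin (n + 1)) (r + 1) c hli, neg_neg]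
  have hmo : ∀ v : DV k K, (r + 1 : ℤ) * mo v P ≤ mo v (mnr c) := by
    intro v
    have h1 := ((hMO k K v _ P).2 hP0).1
    have h2 := ((hMO k K v _ (mnr c)).2 hM0).2.2.1
    apply h2
    intro J
    have h3 := ge_det v (Matrix.of fun a b : Fin (r + 1) => c a (J b)) (mo v P)
      (fun i j => h1 (some (i, J j)))
    push_cast at h3
    exact h3
  have hf1 := (hHG k K htr _ P).1
  have hf2 := (hHG k K htr _ (mnr c)).1
  have hfu := hf1.union hf2
  have hs1 : Function.support (fun v : DV k K => mo v P) ⊆ ↑hfu.toFinset := by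
    intro v hv
    rw [Set.Finite.coe_toFinset]
    exact Or.inl hv
  have hs2 : Function.support (fun v : DV k K => mo v (mnr c)) ⊆ ↑hfu.toFinset := by
    intro v hv
    rw [Set.Finite.coe_toFinset]
    exact Or.inr hv
  have h7 : hgt k (mnr c) ≤ (r + 1) * hgt k P := by
    unfold hgt
    rw [finsum_eq_sum_of_support_subset _ hs1, finsum_eq_sum_of_support_subset _ hs2]
    have h8 := Finset.sum_le_sum (s := hfu.toFinset) fun v _ => hmo v
    rw [← Finset.mul_sum] at h8
    linarith
  refine h7.trans ?_
  have h9 : (0 : ℤ) ≤ r + 1 := by positivity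
  exact mul_le_mul_of_nonneg_left hmain h9

end Pool.Agent.H2.EE
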