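import Pool.Agent.H30.EE.TargetsU
import Pool.Agent.H2.EE.Lead

/-!
# UGC: good combinations
-/

set_option autoImplicit false

namespace Pool.Agent.H2.EE

open MvPolynomial SC Pool.Agent.H27.LV Pool.Agent.H17.VG Pool.Agent.H30.EE

section UGC

variable {k E : Type} [Field k] [IsAlgClosed k] [CharZero k] [Field E] [Algebra k E]
  [Algebra.EssFiniteType k E]

omit [IsAlgClosed k] [CharZero k] [Algebra.EssFiniteType k E] in
lemma ugc_le {m : ℕ} (w : Fin (m + 1) → E) (c : Fin (m + 1) → k) (v : DV k E) :
    poleOrder v (fun _ : Fin 1 => ∑ i, algebraMap k E (c i) * w i) ≤ poleOrder v w := by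
  rw [pole_le_iff]
  intro _
  have h := ge_sum v Finset.univ (fun i => algebraMap k E (c i) * w i) (-(poleOrder v w : ℤ))
    (fun i _ => by
      have := (ge_const v (c i)).mul (ge_pole v w i)
      rwa [zero_add] at this)
  rcases h with h | h
  · rw [h, v.ord_zero]; omega
  · exact h

lemma ugc_iff (htr : Algebra.trdeg k E = 1) {m : ℕ} (w : Fin (m + 1) → E)
    (lam : DV k E → Fin (m + 1) → k)
    (hlam : ∀ v i, ge v (-(poleOrder v w : ℤ) + 1)
      (w i - algebraMap k E (lam v i) * v.unif ^ (-(poleOrder v w : ℤ))))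
    (c : Fin (m + 1) → k) :
    h1 k (∑ i, algebraMap k E (c i) * w i) = deg k w ↔
      ∀ v : DV k E, 0 < poleOrder v w → ∑ i, c i * lam v i ≠ 0 := by
  have hle := ugc_le w c
  have hf1 := pfi k E htr (Fin 1) (fun _ => ∑ i, algebraMap k E (c i) * w i)
  have hf2 := pfi k E htr (Fin (m + 1)) w
  have key : ∀ v : DV k E, 0 < poleOrder v w → (∑ i, c i * lam v i ≠ 0 ↔
      poleOrder v (fun _ : Fin 1 => ∑ i, algebraMap k E (c i) * w i) = poleOrder v w) := by
    intro v hv
    have hs := lead_sum v (hlam v) c
    constructor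
    · intro h
      obtain ⟨h2, h3⟩ := ne_of_lead v hs h
      apply le_antisymm (hle v)
      unfold poleOrder at *
      simp only [Finset.univ_unique, Finset.sup_singleton] at *
      rw [h3]
      omega
    · intro h h0
      rw [h0, map_zero, zero_mul, sub_zero] at hs
      obtain ⟨i, hi⟩ := pole_exists v (fun _ : Fin 1 => ∑ i, algebraMap k E (c i) * w i)
        (by rw [h]; exact hv)
      rw [h] at hi
      rcases hs with hs | hs
      · rw [hs, v.ord_zero] at hi; omega
      · omega
  have hd : h1 k (∑ i, algebraMap k E (c i) * w i) =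
      ∑ᶠ v : DV k E, poleOrder v (fun _ : Fin 1 => ∑ i, algebraMap k E (c i) * w i) := rfl
  have hd2 : deg k w = ∑ᶠ v : DV k E, poleOrder v w := rfl
  constructor
  · intro h v hv
    rw [key v hv]
    by_contra hne
    have hlt : poleOrder v (fun _ : Fin 1 => ∑ i, algebraMap k E (c i) * w i) < poleOrder v w :=
      lt_of_le_of_ne (hle v) hne
    have hsub1 : Function.support (fun v : DV k E =>
        poleOrder v (fun _ : Fin 1 => ∑ i, algebraMap k E (c i) * w i)) ⊆ ↑hf2.toFinset := by
      intro v' hv'
      rw [Set.Finite.coe_toFinset]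
      have h4 := hle v'
      have h5 : poleOrder v' (fun _ : Fin 1 => ∑ i, algebraMap k E (c i) * w i) ≠ 0 := hv'
      simp only [Set.mem_ofPred_eq]
      omega
    have hsub2 : Function.support (fun v : DV k E => poleOrder v w) ⊆ ↑hf2.toFinset := by
      intro v' hv'
      rw [Set.Finite.coe_toFinset]
      exact hv'
    rw [hd, hd2, finsum_eq_sum_of_support_subset _ hsub1,
      finsum_eq_sum_of_support_subset _ hsub2] at h
    have h6 := Finset.sum_lt_sum (s := hf2.toFinset) (fun v' _ => hle v')
      ⟨v, hf2.mem_toFinset.2 (by simp only [Set.mem_ofPred_eq]; omega), hlt⟩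
    rw [h] at h6
    exact lt_irrefl _ h6
  · intro h
    rw [hd, hd2]
    apply finsum_congr
    intro v
    rcases Nat.eq_zero_or_pos (poleOrder v w) with h0 | h0
    · have := hle v
      omega
    · exact (key v h0).1 (h v h0)

end UGC

theorem pf_UGC : T_UGC := by
  classical
  intro k E _ _ _ _ _ _ htr m w
  have hex : ∀ v : DV k E, ∃ lam : Fin (m + 1) → k, ∀ i, ge v (-(poleOrder v w : ℤ) + 1)
      (w i - algebraMap k E (lam i) * v.unif ^ (-(poleOrder v w : ℤ))) :=
    fun v => lead htr v w _ (ge_pole v w)
  choose lam hlam using hex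
  have hiff := ugc_iff htr w lam hlam
  have hcast : ∀ c : Fin (m + 1) → ℤ, ∑ i, (c i : E) * w i =
      ∑ i, algebraMap k E ((c i : k)) * w i := by
    intro c
    exact Finset.sum_congr rfl fun i _ => by rw [map_intCast]
  have hgood : ∀ c : Fin (m + 1) → ℤ, GoodC k w c ↔
      ∀ v : DV k E, 0 < poleOrder v w → ∑ i, (c i : k) * lam v i ≠ 0 := by
    intro c
    unfold GoodC
    rw [hcast c]
    exact hiff fun i => (c i : k)
  have hfin : {v : DV k E | poleOrder v w ≠ 0}.Finite := pfi k E htr _ w
  have hlne : ∀ v : DV k E, 0 < poleOrder v w → lam v ≠ 0 := by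
    intro v hv h0
    obtain ⟨i, hi⟩ := pole_exists v w hv
    have h2 := hlam v i
    rw [h0] at h2
    simp only [Pi.zero_apply, map_zero, zero_mul, sub_zero] at h2
    rcases h2 with h2 | h2
    · rw [h2, v.ord_zero] at hi; omega
    · omega
  constructor
  · obtain ⟨N, hN⟩ := exists_int hfin.toFinset lam (fun v hv => hlne v (by
      have := hfin.mem_toFinset.1 hv
      simp only [Set.mem_ofPred_eq] at this
      omega))
    refine ⟨fun i => (N : ℤ) ^ (i : ℕ), ?_⟩
    rw [hgood]
    intro v hv
    have := hN v (hfin.mem_toFinset.2 (by simp only [Set.mem_ofPred_eq]; omega))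
    simpa using this
  · intro c hc i
    rw [hgood] at hc
    have hsub : {j : ℤ | ¬ GoodC k w (fun l => c l + if l = i then j else 0)} ⊆
        ⋃ v ∈ hfin.toFinset, {j : ℤ | ∑ l, (c l : k) * lam v l + (j : k) * lam v i = 0} := by
      intro j hj
      simp only [Set.mem_ofPred_eq] at hj
      rw [hgood] at hj
      push Not at hj
      obtain ⟨v, hv, h0⟩ := hj
      simp only [Set.mem_iUnion]
      refine ⟨v, hfin.mem_toFinset.2 (by simp only [Set.mem_ofPred_eq]; omega), ?_⟩
      simp only [Set.mem_ofPred_eq]
      rw [← h0]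
      have h4 : ∀ l : Fin (m + 1), ((c l + if l = i then j else 0 : ℤ) : k) * lam v l =
          (c l : k) * lam v l + (if l = i then (j : k) * lam v l else 0) := by
        intro l
        split_ifs
        · push_cast; ring
        · push_cast; ring
      rw [Finset.sum_congr rfl fun l _ => h4 l, Finset.sum_add_distrib]
      simp
    refine Set.Finite.subset (Set.Finite.biUnion hfin.toFinset.finite_toSet ?_) hsub
    intro v hv
    have hv' : 0 < poleOrder v w := by
      have := hfin.mem_toFinset.1 hv
      simp only [Set.mem_ofPred_eq] at this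
      omega
    by_cases hl : lam v i = 0
    · have he : {j : ℤ | ∑ l, (c l : k) * lam v l + (j : k) * lam v i = 0} = ∅ := by
        ext j
        simp only [Set.mem_ofPred_eq, Set.mem_empty_iff_false, iff_false]
        rw [hl, mul_zero, add_zero]
        exact hc v hv'
      rw [he]
      exact Set.finite_empty
    · refine Set.Subsingleton.finite ?_
      intro j hj j' hj'
      simp only [Set.mem_ofPred_eq] at hj hj'
      have h5 : (j : k) * lam v i = (j' : k) * lam v i := by
        rw [← add_right_inj (∑ l, (c l : k) * lam v l), hj, hj']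
      exact_mod_cast mul_right_cancel₀ hl h5

end Pool.Agent.H2.EE
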